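import Pool.Agent.Q190.ME.Ex

/-!
# A mean ergodic convolution operator which is not power bounded

On the discrete group `G = ℤ × S₃` there is a finitely supported complex measure `μ` such that, for
every `1 < p < ∞`, convolution by `μ` on `ℓ^p(G)` is mean ergodic but not power bounded.
-/

set_option autoImplicit false

open scoped ENNReal
open Filter Topology

namespace Pool.Agent.Results.MP_27f8b5_an.MeanErgodicNotPowerBounded

/-- `L^p(G)` for a discrete group `G` (with counting measure as Haar measure). -/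
abbrev ellP (G : Type) (p : ℝ≥0∞) : Type := lp (fun _ : G => ℂ) p

/-- `T` is the operator `λ_p(μ)` of left convolution by the finitely supported complex measure
`μ = ∑_y μ(y) δ_y` on the discrete group `G`: `(T f)(x) = ∑_y μ(y) f(y⁻¹ x)`. -/
def IsConvolution {G : Type} [Group G] {p : ℝ≥0∞} [Fact (1 ≤ p)] (μ : G →₀ ℂ)
    (T : ellP G p →L[ℂ] ellP G p) : Prop :=
  ∀ (f : ellP G p) (x : G), T f x = μ.sum fun y c => c * f (y⁻¹ * x)

/-- `sup_n ‖T^n‖ < ∞`. -/
def PowerBounded {E : Type} [NormedAddCommGroup E] [NormedSpace ℂ E] (T : E →L[ℂ] E) : Prop :=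
  ∃ C : ℝ, ∀ n : ℕ, ‖T ^ n‖ ≤ C

/-- The Cesàro means `(1/n) ∑_{k<n} T^k x` converge in norm for every `x`. -/
def MeanErgodic {E : Type} [NormedAddCommGroup E] [NormedSpace ℂ E] (T : E →L[ℂ] E) : Prop :=
  ∀ x : E, ∃ y : E,
    Tendsto (fun n : ℕ => (n : ℂ)⁻¹ • ∑ k ∈ Finset.range n, (T ^ k) x) atTop (𝓝 y)

/-- **Negative answer to Q1.** On the discrete group `G = ℤ × S₃` there is a finitely supported
complex measure `μ` such that for every `1 < p < ∞` the convolution operator `λ_p(μ)` on `L^p(G)` is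
mean ergodic but not power bounded. -/
theorem result : ∃ μ : (Multiplicative ℤ × Equiv.Perm (Fin 3)) →₀ ℂ,
    ∀ (p : ℝ≥0∞) [Fact (1 ≤ p)], 1 < p → p ≠ ∞ →
      ∃ T : ellP (Multiplicative ℤ × Equiv.Perm (Fin 3)) p →L[ℂ]
          ellP (Multiplicative ℤ × Equiv.Perm (Fin 3)) p,
        IsConvolution μ T ∧ MeanErgodic T ∧ ¬ PowerBounded T := by
  refine ⟨Pool.Agent.Q190.ME.mm, fun p _ hp1 hpt => ?_⟩
  have h1 : 1 < p.toReal := by
    have := (ENNReal.toReal_lt_toReal ENNReal.one_ne_top hpt).2 hp1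
    simpa using this
  have hp0 : 0 < p.toReal := by linarith
  exact ⟨Pool.Agent.Q190.ME.TT hp0, fun f x => Pool.Agent.Q190.ME.TT_conv hp0 f x,
    fun x => ⟨0, Pool.Agent.Q190.ME.TT_mean_ergodic hp0 h1 hpt x⟩,
    Pool.Agent.Q190.ME.TT_not_power_bounded hp0⟩

end Pool.Agent.Results.MP_27f8b5_an.MeanErgodicNotPowerBounded
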